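import Pool.Agent.H3R4.LD.Space

/-!
# Consistently there is a regular L-space all of whose countable powers with at least two
factors are D-separable

The L-space of the starting file `DSeparableSquare` (the nodes of a coherent Suslin tree, with the
topology generated by the cones and their complements): every power `X ^ ι` with `ι` countable
and with at least two elements has a sigma-disjoint pi-base, so it is D-separable.
-/

set_option autoImplicit false

namespace Pool.Agent.Results.MP_ffd784_gt.AllPowers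

open Set Topology TopologicalSpace
open Pool.Agent.H3R4.LD
open Pool.Agent.Helper292.ForceCH (Om OmegaOnePreserved DiamondHolds exists_bound)

/-- `Z` has a sigma-disjoint pi-base: there are countably many families of pairwise disjoint
nonempty open sets such that each nonempty open set contains a member of one of them. -/
def SigmaDisjointPiBase (Z : Type) [TopologicalSpace Z] : Prop :=
  ∃ B : ℕ → Set (Set Z), (∀ n, ∀ U ∈ B n, IsOpen U ∧ U.Nonempty) ∧
    (∀ n, ∀ U ∈ B n, ∀ V ∈ B n, U ≠ V → Disjoint U V) ∧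
    ∀ W : Set Z, IsOpen W → W.Nonempty → ∃ n, ∃ U ∈ B n, U ⊆ W

/-- A space with a sigma-disjoint pi-base is D-separable. -/
theorem dSeparable_of_piBase {Z : Type} [TopologicalSpace Z] (h : SigmaDisjointPiBase Z) :
    DSeparable Z := by
  classical
  obtain ⟨B, hB1, hB2, hB3⟩ := h
  intro D hD
  have hpick : ∀ (n : ℕ) (U : Set Z), ∃ z : Option Z, U ∈ B n → ∃ y, z = some y ∧ y ∈ D n ∧ y ∈ U := by
    intro n U
    by_cases hU : U ∈ B n
    · obtain ⟨y, hy1, hy2⟩ := (hD n).inter_open_nonempty U (hB1 n U hU).1 (hB1 n U hU).2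
      exact ⟨some y, fun _ => ⟨y, rfl, hy2, hy1⟩⟩
    · exact ⟨none, fun h => absurd h hU⟩
  choose z hz using hpick
  refine ⟨fun n => {y | ∃ U ∈ B n, z n U = some y}, fun n => ⟨?_, ?_⟩, ?_⟩
  · rintro y ⟨U, hU, hy⟩
    obtain ⟨y', h1, h2, -⟩ := hz n U hU
    rw [h1] at hy
    cases hy
    exact h2
  · rw [discreteTopology_subtype_iff']
    rintro y ⟨U, hU, hy⟩
    refine ⟨U, (hB1 n U hU).1, ?_⟩
    ext w
    simp only [mem_inter_iff, mem_singleton_iff]
    constructor
    · rintro ⟨hw, V, hV, hwV⟩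
      obtain ⟨y', h1, -, h3⟩ := hz n V hV
      rw [h1] at hwV
      cases hwV
      by_cases hUV : U = V
      · subst hUV
        rw [h1] at hy
        cases hy
        rfl
      · exact absurd h3 (Set.disjoint_left.1 (hB2 n U hU V hV hUV) hw)
    · rintro rfl
      obtain ⟨y', h1, -, h3⟩ := hz n U hU
      rw [h1] at hy
      cases hy
      exact ⟨h3, U, hU, h1⟩
  · rw [dense_iff_inter_open]
    intro W hW hne
    obtain ⟨n, U, hU, hUW⟩ := hB3 W hW hne
    obtain ⟨y, h1, -, h3⟩ := hz n U hU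
    exact ⟨y, hUW h3, mem_iUnion.2 ⟨n, U, hU, h1⟩⟩

variable {f : Om → Om → ℤ}

theorem piBase_pow (hc : ∀ α, ∀ β < α, {ξ | ξ < β ∧ f α ξ ≠ f β ξ}.Finite) (ι : Type)
    [Countable ι] [Nontrivial ι] : SigmaDisjointPiBase (ι → Sp f) := by
  classical
  obtain ⟨i0, i1, hi⟩ := exists_pair_ne ι
  obtain ⟨e, he⟩ := exists_surjective_nat (ℕ × Finset ι)
  let U : Finset ι → (ι → Node) → Set (ι → Sp f) := fun J t => (J : Set ι).pi fun j => cone f (t j)
  let P : ℕ → Finset ι → Set (ι → Node) := fun n J => {t | i0 ∈ J ∧ i1 ∈ J ∧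
    (t i0, t i1) ∈ Pn f n ∧ ∀ j ∈ J, (t j).lv = (t i0).lv}
  have hdis : ∀ n J, ∀ t ∈ P n J, ∀ s ∈ P n J, ∀ x ∈ U J t, x ∈ U J s → U J t = U J s := by
    rintro n J t ⟨h0, h1, ht, htl⟩ s ⟨-, -, hs, hsl⟩ x hxt hxs
    have h2 := Pn_eq ht hs (hxt i0 h0) (hxs i0 h0) (hxt i1 h1) (hxs i1 h1)
    have h3 : t i0 = s i0 := congrArg Prod.fst h2
    have h4 : ∀ j ∈ J, t j = s j := by
      intro j hj
      have h5 : (t j).lv = (s j).lv := by rw [htl j hj, hsl j hj, h3]
      exact eq_of_le (le_of_lv_le (hxt j hj) (hxs j hj) h5.le) h5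
    refine Set.pi_congr rfl fun j hj => ?_
    show cone f (t j) = cone f (s j)
    rw [h4 j hj]
  refine ⟨fun n => {W | ∃ t ∈ P (e n).1 (e n).2, W = U (e n).2 t}, ?_, ?_, ?_⟩
  · rintro n _ ⟨t, ht, rfl⟩
    refine ⟨isOpen_set_pi (Finset.finite_toSet _) fun j _ => isOpen_cone _, ?_⟩
    exact ⟨fun j => (t j : Node), fun j _ => le_refl _⟩
  · rintro n _ ⟨t, ht, rfl⟩ _ ⟨s, hs, rfl⟩ hne
    rw [Set.disjoint_left]
    intro x hxt hxs
    exact hne (hdis _ _ t ht s hs x hxt hxs)
  · rintro W hW ⟨x, hx⟩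
    obtain ⟨I, u, hu1, hu2⟩ := isOpen_pi_iff.1 hW x hx
    have hv : ∀ j, ∃ v : Node, j ∈ I → cone f v ⊆ u j := by
      intro j
      by_cases hj : j ∈ I
      · obtain ⟨v, -, hv2⟩ := exists_cone hc (hu1 j hj).1 (hu1 j hj).2
        exact ⟨v, fun _ => hv2⟩
      · exact ⟨x j, fun h => absurd h hj⟩
    choose v hv using hv
    obtain ⟨δ, hδ⟩ := exists_ub (S := range fun j => (v j).lv) (countable_range _)
    have hδ' : ∀ j, (v j).lv < δ := fun j => hδ _ ⟨j, rfl⟩
    obtain ⟨a, ha1, ha2, -⟩ := exists_node_ge hc (v i0) 0 (hδ' i0)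
    obtain ⟨n, q, hq, hq1, hq2⟩ := exists_Pn hc a (v i1)
    have hlv : δ ≤ q.1.lv := ha1 ▸ hq1.1
    have ht : ∀ j, ∃ t : Node, t.lv = q.1.lv ∧ le f (v j) t := by
      intro j
      obtain ⟨t, ht1, ht2, -⟩ := exists_node_ge hc (v j) 0 ((hδ' j).trans_le hlv)
      exact ⟨t, ht1, ht2⟩
    choose t ht1 ht2 using ht
    let s : ι → Node := fun j => if j = i0 then q.1 else if j = i1 then q.2 else t j
    have hs0 : s i0 = q.1 := if_pos rfl
    have hs1 : s i1 = q.2 := by
      show (if i1 = i0 then q.1 else if i1 = i1 then q.2 else t i1) = q.2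
      rw [if_neg hi.symm, if_pos rfl]
    have hsl : ∀ j, (s j).lv = q.1.lv := by
      intro j
      by_cases h0 : j = i0
      · rw [h0, hs0]
      · by_cases h1 : j = i1
        · rw [h1, hs1]; exact hq.1.symm
        · show (if j = i0 then q.1 else if j = i1 then q.2 else t j).lv = q.1.lv
          rw [if_neg h0, if_neg h1]; exact ht1 j
    have hsv : ∀ j, le f (v j) (s j) := by
      intro j
      by_cases h0 : j = i0
      · rw [h0, hs0]; exact le_trans ha2 hq1
      · by_cases h1 : j = i1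
        · rw [h1, hs1]; exact hq2
        · show le f (v j) (if j = i0 then q.1 else if j = i1 then q.2 else t j)
          rw [if_neg h0, if_neg h1]; exact ht2 j
    obtain ⟨k, hk⟩ := he (n, insert i0 (insert i1 I))
    have hk1 : (e k).1 = n := by rw [hk]
    have hk2 : (e k).2 = insert i0 (insert i1 I) := by rw [hk]
    refine ⟨k, U (e k).2 s, ⟨s, ⟨?_, ?_, ?_, ?_⟩, rfl⟩, ?_⟩
    · rw [hk2]; exact Finset.mem_insert_self _ _
    · rw [hk2]; exact Finset.mem_insert_of_mem (Finset.mem_insert_self _ _)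
    · rw [hk1, hs0, hs1]; exact hq
    · intro j _
      rw [hsl j, hs0]
    · intro y hy
      apply hu2
      intro j hj
      apply hv j hj
      have h1 : y j ∈ cone f (s j) := hy j (by
        rw [hk2]
        exact Finset.mem_coe.2 (Finset.mem_insert_of_mem (Finset.mem_insert_of_mem hj)))
      exact le_trans (hsv j) h1

/-- (1) Some forcing notion preserves `ω₁` and forces diamond.  (2) Diamond implies that there is
a Tychonoff hereditarily Lindelöf space `X` which is not separable and all of whose countable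
powers with at least two factors have a sigma-disjoint pi-base and are D-separable; in particular
its square is D-separable. -/
theorem result :
    (∃ (P : Type) (_ : Preorder P), Nonempty P ∧ ∀ p : P,
      p ∈ OmegaOnePreserved P ∧ p ∈ DiamondHolds P) ∧
    (Diamond → ∃ (X : Type) (_ : TopologicalSpace X), T35Space X ∧
      HereditarilyLindelofSpace X ∧ ¬ TopologicalSpace.SeparableSpace X ∧
      DSeparable (X × X) ∧
      ∀ (ι : Type) [Countable ι] [Nontrivial ι],
        SigmaDisjointPiBase (ι → X) ∧ DSeparable (ι → X)) := by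
  refine ⟨?_, fun hD => ?_⟩
  · obtain ⟨P, hP, hne, h⟩ := Pool.Agent.Helper292.ForceCH.exists_forcing
    exact ⟨P, hP, hne, fun p => ⟨(h p).1, (h p).2.1⟩⟩
  · obtain ⟨f, hc, hS⟩ := exists_suslin hD
    exact ⟨Sp f, inferInstance, inferInstance, hereditarilyLindelof hc hS, not_separable,
      dSeparable_sq hc, fun ι _ _ => ⟨piBase_pow hc ι, dSeparable_of_piBase (piBase_pow hc ι)⟩⟩

end Pool.Agent.Results.MP_ffd784_gt.AllPowers
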